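import Pool.Agent.Q101.TwistSum

set_option autoImplicit false

namespace Pool.Agent.Results.MP_142f15_an.NoUniformRenorming

section Defs

variable {X : Type} [NormedAddCommGroup X] [NormedSpace ℝ X]

/-- `(x_n)` is a basis with coordinate functionals `(x_n^*)`: both sequences are norm bounded, they
are biorthogonal, and the linear span of `(x_n)` is dense. -/
structure IsBasis (x : ℕ → X) (xs : ℕ → X →L[ℝ] ℝ) : Prop where
  bounded : ∃ B : ℝ, ∀ n, ‖x n‖ ≤ B
  bounded_dual : ∃ B : ℝ, ∀ n, ‖xs n‖ ≤ B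
  biorth : ∀ m n, xs m (x n) = if m = n then 1 else 0
  dense : closure ((Submodule.span ℝ (Set.range x) : Submodule ℝ X) : Set X) = Set.univ

/-- The basis is nearly unconditional. -/
def IsNearlyUnconditional (x : ℕ → X) (xs : ℕ → X →L[ℝ] ℝ) : Prop :=
  ∀ a : ℝ, 0 < a → a ≤ 1 → ∃ C : ℝ, ∀ f : X, (∀ n, |xs n f| ≤ 1) →
    ∀ A : Finset ℕ, (∀ n ∈ A, a ≤ |xs n f|) → ‖∑ n ∈ A, xs n f • x n‖ ≤ C * ‖f‖

/-- The basis is `L`-QGLC for the norm `ν` on `X` (quasi-greedy for largest coefficients). -/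
def IsQGLC (ν : Seminorm ℝ X) (L : ℝ) (x : ℕ → X) (xs : ℕ → X →L[ℝ] ℝ) : Prop :=
  ∀ (A : Finset ℕ) (ε : ℕ → ℝ), (∀ n ∈ A, |ε n| = 1) →
    ∀ f : X, (∀ n, |xs n f| ≤ 1) → (∀ n ∈ A, xs n f = 0) →
      ν (∑ n ∈ A, ε n • x n) ≤ L * ν (∑ n ∈ A, ε n • x n + f)

/-- `ν` is a norm on `X` equivalent to the given one. -/
def IsEquivalentNorm (ν : Seminorm ℝ X) : Prop :=
  ∃ c C : ℝ, 0 < c ∧ ∀ f : X, c * ‖f‖ ≤ ν f ∧ ν f ≤ C * ‖f‖

end Defs

open Q101.Blocks Q101.Twist in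
/-- There is a (real) Banach space `X` such that for every `L` some nearly unconditional basis of
`X` is not `L`-QGLC with respect to any equivalent norm on `X`. -/
theorem result : ∃ (X : Type) (_ : NormedAddCommGroup X) (_ : NormedSpace ℝ X),
    CompleteSpace X ∧ ∀ L : ℝ, ∃ (x : ℕ → X) (xs : ℕ → X →L[ℝ] ℝ),
      IsBasis x xs ∧ IsNearlyUnconditional x xs ∧
        ∀ ν : Seminorm ℝ X, IsEquivalentNorm ν → ¬ IsQGLC ν L x xs := by
  classical
  obtain ⟨e⟩ := nonempty_enum (fun J => Io J)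
  refine ⟨X0, inferInstance, inferInstance, inferInstance, fun L₀ => ?_⟩
  set L := |L₀| with hL
  have hL0 : 0 ≤ L := abs_nonneg _
  set c := 2 * (1 + L) with hc
  have hc0 : 0 ≤ c := by positivity
  let Ψ : Sp (dd c) 1 ≃ₗᵢ[ℝ] X0 := iso c
  let cfL : ∀ s : Σ J, Io J, Sp (dd c) 1 →L[ℝ] ℝ := fun s =>
    (cf (dd c) 1 s).mkContinuous 2 (fun f => by rw [Real.norm_eq_abs]; exact cf_bound hc0 s f)
  let x : ℕ → X0 := fun n => Ψ (bv (dd c) 1 (e n))
  let xs : ℕ → X0 →L[ℝ] ℝ := fun n =>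
    (cfL (e n)).comp (Ψ.symm.toContinuousLinearEquiv : X0 →L[ℝ] Sp (dd c) 1)
  have hxs : ∀ n f, xs n f = cf (dd c) 1 (e n) (Ψ.symm f) := fun n f => rfl
  have hsum : ∀ (A : Finset ℕ) (a : ℕ → ℝ), ∑ n ∈ A, a n • x n =
      Ψ (∑ s ∈ A.map e.toEmbedding, a (e.symm s) • bv (dd c) 1 s) := by
    intro A a
    rw [map_sum, Finset.sum_map]
    apply Finset.sum_congr rfl
    intro n _
    rw [map_smul]
    change a n • x n = a (e.symm (e n)) • x n
    rw [Equiv.symm_apply_apply]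
  refine ⟨x, xs, ⟨⟨1 + c, fun n => ?_⟩, ⟨2, fun n => ?_⟩, fun m n => ?_, ?_⟩, ?_, ?_⟩
  · change ‖Ψ (bv (dd c) 1 (e n))‖ ≤ 1 + c
    rw [Ψ.norm_map]
    exact bv_norm_le hc0 _
  · apply ContinuousLinearMap.opNorm_le_bound _ (by norm_num)
    intro f
    rw [hxs, Real.norm_eq_abs, ← Ψ.symm.norm_map f]
    exact cf_bound hc0 _ _
  · rw [hxs]
    change cf (dd c) 1 (e m) (Ψ.symm (Ψ (bv (dd c) 1 (e n)))) = _
    rw [Ψ.symm_apply_apply, cf_bv]
    simp only [EmbeddingLike.apply_eq_iff_eq]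
  · rw [Set.eq_univ_iff_forall]
    intro f
    rw [Metric.mem_closure_iff]
    intro ε hε
    obtain ⟨g, hg, hg'⟩ := dense_span (dd c) 1 ENNReal.one_ne_top (Ψ.symm f) hε
    refine ⟨Ψ g, ?_, ?_⟩
    · have h1 : Submodule.map (Ψ.toLinearEquiv : Sp (dd c) 1 →ₗ[ℝ] X0)
          (Submodule.span ℝ (Set.range (bv (dd c) 1))) ≤ Submodule.span ℝ (Set.range x) := by
        rw [Submodule.map_span, Submodule.span_le]
        rintro _ ⟨_, ⟨s, rfl⟩, rfl⟩
        apply Submodule.subset_span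
        exact ⟨e.symm s, by change Ψ (bv (dd c) 1 (e (e.symm s))) = _; rw [Equiv.apply_symm_apply]; rfl⟩
      exact h1 ⟨g, hg, rfl⟩
    · rw [dist_eq_norm]
      have h2 : f - Ψ g = Ψ (Ψ.symm f - g) := by rw [map_sub, Ψ.apply_symm_apply]
      rw [h2, Ψ.norm_map]
      exact hg'
  · -- nearly unconditional
    intro a ha _
    obtain ⟨K, hK⟩ := near_sum (c := c) hc0 ha
    refine ⟨K, fun f hf A hA => ?_⟩
    have hf' : ∀ s, |cf (dd c) 1 s (Ψ.symm f)| ≤ 1 := by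
      intro s
      have := hf (e.symm s)
      rwa [hxs, Equiv.apply_symm_apply] at this
    have h1 := hK (Ψ.symm f) hf' (A.map e.toEmbedding) (by
      intro s hs
      obtain ⟨n, hn, rfl⟩ := Finset.mem_map.1 hs
      exact hA n hn)
    rw [hsum A (fun n => xs n f), Ψ.norm_map]
    rw [Ψ.symm.norm_map] at h1
    refine le_trans (le_of_eq ?_) h1
    congr 1
    apply Finset.sum_congr rfl
    intro s _
    rw [hxs, Equiv.apply_symm_apply]
  · -- no renorming
    rintro ν ⟨c1, c2, hc1, hν⟩ hq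
    let μ : Seminorm ℝ (Sp (dd c) 1) := ν.comp (Ψ.toLinearEquiv : Sp (dd c) 1 →ₗ[ℝ] X0)
    have hμ : ∀ f, μ f = ν (Ψ f) := fun f => rfl
    refine qglc_fails (c := c) μ (L := L) (c1 := c1) (c2 := c2) hL0 hc1
      (fun f => by rw [hμ, ← Ψ.norm_map f]; exact (hν _).1)
      (fun f => by rw [hμ, ← Ψ.norm_map f]; exact (hν _).2) rfl ?_
    intro A g hg1 hg2
    have h1 := hq (A.map e.symm.toEmbedding) (fun _ => 1) (fun n _ => abs_one) (Ψ g)
      (fun n => by rw [hxs, Ψ.symm_apply_apply]; exact hg1 _)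
      (by
        intro n hn
        obtain ⟨s, hs, hsn⟩ := Finset.mem_map.1 hn
        have hen : e n = s := by
          have : e.symm s = n := hsn
          rw [← this, Equiv.apply_symm_apply]
        rw [hxs, Ψ.symm_apply_apply, hen]
        exact hg2 s hs)
    rw [hsum, ← map_add, ← hμ, ← hμ] at h1
    have h2 : (A.map e.symm.toEmbedding).map e.toEmbedding = A := by
      rw [Finset.map_map]
      have h3 : e.symm.toEmbedding.trans e.toEmbedding = Function.Embedding.refl _ :=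
        DFunLike.ext _ _ fun s => e.apply_symm_apply s
      rw [h3, Finset.map_refl]
    rw [h2] at h1
    refine h1.trans ?_
    apply mul_le_mul_of_nonneg_right (le_abs_self L₀)
    exact apply_nonneg μ _

end Pool.Agent.Results.MP_142f15_an.NoUniformRenorming
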